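import Pool.Agent.W5h22.DM.P

/-!
# Maier oscillation along almost all dilates of sparse sets

Maier's theorem says `L_a < 1 < U_a` for `a > 1`: `R_a(x)`, `x` real, oscillates. Does it still oscillate when `x` is
restricted to a sparse set? Under the Riemann hypothesis, Selberg's variance estimate gives `R_a(α λ) → 1`, `λ ∈ Λ`, for
almost every real `α > 0` if `Λ` has at most `(log Y) ^ C` elements in each interval `(Y, 2 Y]` and `a > C + 3` (for
instance `R_a(α 2 ^ n) → 1` for `a > 3`). The first theorem says that `exp ((log Y) ^ c)` elements, `c > 0` as small as one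
likes, destroy this. Let `Λ` be a set of real numbers with mutual distances at least `1` and at least `exp ((log Y) ^ c)`
elements in `(Y, 2 Y]` for a sequence of `Y` tending to infinity (`Thick c Λ`; for instance the set of all `k`-th powers).

(1) For finite measures `μ ≠ ν` on a compact interval `[A, B]`, `A > 1`, of exponents and `c > 0` there is `δ > 0` such that,
for every `Λ` with `Thick c Λ` and for almost every real `α > 0`, there are arbitrarily large `x ∈ Λ` with

  `∫ R_a(α x) dμ(a) - ∫ R_a(α x) dν(a) ≥ μ(ℝ) - ν(ℝ) + δ`.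

For every unbounded set `Λ` whatsoever, this holds for all `α > 0` of a residual set.

(2) For different `a_1, ..., a_m > 1` and `c > 0` there is `ρ > 0` such that, for `Thick c Λ` and almost every `α > 0`
(respectively for `Λ` unbounded and all `α > 0` of a residual set), for every `Y` each vector at distance at most `ρ` from
`(1, ..., 1)` is a convex combination of vectors `(R_{a_1}(α x), ..., R_{a_m}(α x))`, `x ∈ Λ`, `x ≥ Y`.

So for almost every `α`, `limsup R_a(α n ^ k) > 1 > liminf R_a(α n ^ k)` for every `a > 1` and every `k`.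

Proof (`Pool.Agent.W5h22.DM`). Let `Q` be the product of the primes in `((log X) ^ u, (log X) ^ v]`, `v` small. The prime
number theorem in sharp windows for all moduli composed of such primes, with one exceptional prime (zero-free region and
log-free zero density of the starting library) gives the mean of `R_a(m)` over the multiples `m` of `Q` in each window
`(N, N + κ N]`, and a sieve bound gives the mean square; so in every such window a positive proportion of the
multiples of `Q` are good. The sets of the `α` for which `α x` is less than `1` above a good multiple of `Q` have measure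
`≫ 1 / Q`, and for different `x, x' ∈ Λ` of the same size they are almost independent in the quadratic mean when there are
at least `Q ^ 4` elements; then a positive proportion of every interval is reached and Lebesgue's density theorem applies.
-/

set_option autoImplicit false

open Filter MeasureTheory

namespace Pool.Agent.Results.MP_b09185_nt.DilatedSets

/-- `R_h(x) = (log x / h) (π(x + h) - π(x))` for `h = (log x) ^ a` -/
noncomputable def R (a x : ℝ) : ℝ :=
  Real.log x / Real.log x ^ a *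
    ((Nat.primeCounting ⌊x + Real.log x ^ a⌋₊ : ℝ) - Nat.primeCounting ⌊x⌋₊)

/-- the elements of `Λ` have mutual distances at least `1`, and for arbitrarily large `Y` there are at least
`exp ((log Y) ^ c)` of them in `(Y, 2 Y]` -/
def Thick (c : ℝ) (Λ : Set ℝ) : Prop :=
  (∀ x ∈ Λ, ∀ y ∈ Λ, x ≠ y → 1 ≤ |x - y|) ∧
  ∀ Y0 : ℝ, ∃ Y : ℝ, Y0 ≤ Y ∧ Real.exp ((Real.log Y) ^ c) ≤ ((Λ ∩ Set.Ioc Y (2 * Y)).ncard : ℝ)

/-- `Λ` is unbounded -/
def Unbounded (Λ : Set ℝ) : Prop := ∀ Y : ℝ, ∃ x ∈ Λ, Y ≤ x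

theorem result :
    (∀ A B : ℝ, 1 < A → ∀ (μ ν : Measure ℝ) [IsFiniteMeasure μ] [IsFiniteMeasure ν],
      μ (Set.Icc A B)ᶜ = 0 → ν (Set.Icc A B)ᶜ = 0 → μ ≠ ν → ∀ c : ℝ, 0 < c → ∃ δ : ℝ, 0 < δ ∧ ∀ Λ : Set ℝ,
        (Thick c Λ → ∀ᵐ α : ℝ, 0 < α → ∀ Y : ℝ, ∃ x ∈ Λ, Y ≤ x ∧
          μ.real Set.univ - ν.real Set.univ + δ ≤ ∫ a, R a (α * x) ∂μ - ∫ a, R a (α * x) ∂ν) ∧
        (Unbounded Λ → ∀ᶠ α in residual ℝ, 0 < α → ∀ Y : ℝ, ∃ x ∈ Λ, Y ≤ x ∧
          μ.real Set.univ - ν.real Set.univ + δ ≤ ∫ a, R a (α * x) ∂μ - ∫ a, R a (α * x) ∂ν)) ∧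
    (∀ (m : ℕ) (a : Fin m → ℝ), (∀ i, 1 < a i) → Function.Injective a → ∀ c : ℝ, 0 < c →
      ∃ ρ : ℝ, 0 < ρ ∧ ∀ Λ : Set ℝ,
        (Thick c Λ → ∀ᵐ α : ℝ, 0 < α → ∀ Y : ℝ, ∀ v : Fin m → ℝ, (∀ i, |v i - 1| ≤ ρ) →
          v ∈ convexHull ℝ {r : Fin m → ℝ | ∃ x ∈ Λ, Y ≤ x ∧ r = fun i => R (a i) (α * x)}) ∧
        (Unbounded Λ → ∀ᶠ α in residual ℝ, 0 < α → ∀ Y : ℝ, ∀ v : Fin m → ℝ, (∀ i, |v i - 1| ≤ ρ) →
          v ∈ convexHull ℝ {r : Fin m → ℝ | ∃ x ∈ Λ, Y ≤ x ∧ r = fun i => R (a i) (α * x)})) := by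
  constructor
  · intro A B hA μ ν _ _ hμ hν hne c hc
    exact Pool.Agent.W5h22.DM.main_meas A B hA μ ν hμ hν hne c hc
  · intro m a ha hinj c hc
    exact Pool.Agent.W5h22.DM.main_hull a ha hinj c hc

end Pool.Agent.Results.MP_b09185_nt.DilatedSets
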