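import Pool.Agent.W5h22.JM.M

/-!
# Joint oscillation of `R_{(log x)^a}(x)` for several or infinitely many exponents `a > 1`

Maier's theorem says `L_a < 1 < U_a` for every single exponent `a > 1`. Here the exponents are taken together.

(1) Let `μ ≠ ν` be two different finite measures on a compact interval `[A, B]` of exponents, `A > 1`. Then for every `ε > 0`
there is `δ > 0` such that for all large `X`

  `∫ R_a(n) dμ(a) - ∫ R_a(n) dν(a) ≥ μ(ℝ) - ν(ℝ) + δ`

for at least `X exp (- (log X) ^ ε)` integers `n ∈ (X, 3 X)`. (By symmetry the left hand side is also `≤ μ(ℝ) - ν(ℝ) - δ` for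
as many integers.) So no weighted average, and no other non-trivial linear combination, of the functions `R_a` over the
exponents converges to the expected value: for instance `limsup (R_a - R_b) > 0` for `a ≠ b`, and
`limsup (1 / (B - A)) ∫_A^B R_a(x) da > 1`.

(2) For different exponents `a_1, ..., a_m > 1` there is `ρ > 0` such that for all large `X` every vector at distance at
most `ρ` from `(1, ..., 1)` is a weighted average of the vectors `(R_{a_1}(x), ..., R_{a_m}(x))`, `X < x < 3 X`: the
`m`-dimensional form of `L_a < 1 < U_a`.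

Proof (`Pool.Agent.W5h22.JM`). Elementary apart from the theorem on primes in progressions to large smooth moduli of the
starting library. Let `Q` be the product of the primes of `((log X) ^ u, (log X) ^ v]`, `v = b / k` small and `u` slightly
smaller. The mean value of `R_a(n)` over the multiples `n` of `Q` in `(X, 3 X)` is the number of integers up to
`(log X) ^ a` prime to `Q`, divided by `(log X) ^ a φ(Q) / Q`, up to `o(1)`; by the inequalities of Bonferroni this is
`1 - (-1) ^ k c (1 + o(1))` with `c` about `log (v / u) ^ k / k!` if `(k - 1) v < a < k u`, and `1 + o(c)` for `a > k v`. So the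
exponents immediately to the left of `b` are isolated, `b` and the parity of `k` are free.
-/

set_option autoImplicit false

open Filter MeasureTheory

namespace Pool.Agent.Results.MP_b09185_nt.JointOscillation

/-- `R_h(x) = (log x / h) (π(x + h) - π(x))` for `h = (log x) ^ a` -/
noncomputable def R (a x : ℝ) : ℝ :=
  Real.log x / Real.log x ^ a *
    ((Nat.primeCounting ⌊x + Real.log x ^ a⌋₊ : ℝ) - Nat.primeCounting ⌊x⌋₊)

theorem result :
    (∀ A B : ℝ, 1 < A → ∀ (μ ν : Measure ℝ) [IsFiniteMeasure μ] [IsFiniteMeasure ν],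
      μ (Set.Icc A B)ᶜ = 0 → ν (Set.Icc A B)ᶜ = 0 → μ ≠ ν → ∀ ε : ℝ, 0 < ε → ∃ δ : ℝ, 0 < δ ∧
        ∀ᶠ X : ℝ in atTop, X * Real.exp (-Real.log X ^ ε) ≤
          (Set.ncard {n : ℕ | X < n ∧ (n : ℝ) < 3 * X ∧
            μ.real Set.univ - ν.real Set.univ + δ ≤ ∫ a, R a n ∂μ - ∫ a, R a n ∂ν} : ℝ)) ∧
    (∀ (m : ℕ) (a : Fin m → ℝ), (∀ i, 1 < a i) → Function.Injective a → ∃ ρ : ℝ, 0 < ρ ∧
      ∀ᶠ X : ℝ in atTop, ∀ v : Fin m → ℝ, (∀ i, |v i - 1| ≤ ρ) →
        v ∈ convexHull ℝ {r : Fin m → ℝ | ∃ x : ℕ, X < x ∧ (x : ℝ) < 3 * X ∧ r = fun i => R (a i) x}) := by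
  constructor
  · intro A B hA μ ν _ _ hμ hν hne ε hε
    obtain ⟨δ, hδ, h⟩ := Pool.Agent.W5h22.JM.meas_main A B hA μ ν hμ hν hne ε hε
    refine ⟨δ, hδ, ?_⟩
    filter_upwards [h, eventually_gt_atTop (0 : ℝ)] with X hX hX0
    refine hX.trans (le_of_eq ?_)
    rw [← Set.ncard_coe_finset]
    congr 2
    ext n
    unfold Pool.Agent.W5h22.JM.big
    rw [Finset.mem_coe, Finset.mem_filter, Finset.mem_Icc]
    constructor
    · exact fun h1 => h1.2
    · intro h1
      refine ⟨⟨?_, Nat.le_floor h1.2.1.le⟩, h1⟩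
      have : (0 : ℝ) < n := by linarith [h1.1]
      exact_mod_cast this
  · intro m a ha hinj
    exact Pool.Agent.W5h22.JM.hull_main a ha hinj

end Pool.Agent.Results.MP_b09185_nt.JointOscillation
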