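import Pool.Agent.W5h25.PR.M

/-!
# Maier oscillation in residue classes

For a modulus `q ≥ 1`, a reduced residue class `b` modulo `q` and `a > 1` let `R_a(x; q, b)` be
`φ(q) (log x / h)` times the number of primes `p ≡ b (mod q)` in `(x, x + h]`, `h = (log x) ^ a`. Maier's theorem says that
`R_a(x)`, which is the average of the `φ(q)` numbers `R_a(x; q, b)` for `x ≥ q`, has lower limit `< 1` and upper limit `> 1`.
Here the residue classes are taken together.

(1) Every linear form `∑_b c_b R_a(x; q, b)`, the `c_b` real and not all zero, fails to converge to its expected value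
`∑_b c_b`: for every `ε > 0` there is `δ > 0` such that for all large `X` it is `≥ ∑_b c_b + δ` for at least
`X exp (- (log X) ^ ε)` integers `x ∈ (X, 3 X)`. (Replace `c` by `-c` for the other direction.) For instance the lead
`R_a(x; q, b) - R_a(x; q, b')` of a class over another class is `≥ δ` for many `x`, and `≤ -δ` for many `x`.

(2) There is `ρ > 0` such that for all large `X` every vector at distance at most `ρ` from `(1, ..., 1)` is a weighted average
of the vectors `(R_a(x; q, b))_b`, `X < x < 3 X`, `x` an integer.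

Proof (`Pool.Agent.W5h25.PR`). By a theorem of the starting library on primes in progressions to large smooth moduli the mean
value of `R_a(x; q, b)` over the multiples `x` of `Q = g ∏_{p ∈ s} p` is, up to `o(1)`, the number of integers
`h ≤ (log X) ^ a` prime to `Q` with `h ≡ b (mod q)`, normalised; here `s` is a set of primes up to a small power of `log X`.
If `∑ c_b ≠ 0` take for `s` the primes of `((log X) ^ u, (log X) ^ v]` as in JointOscillation. The forms with `∑ c_b = 0`
need a new set: all primes `p ≤ (log X) ^ w` with `p ≢ 1 (mod q)` and all primes `p ≡ b_0 (mod q)` of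
`((log X) ^ α, (log X) ^ β]`, `α = (a - w) / (k + 1)`, `β = α + w`, `φ(q) ∣ k`. An integer `h ≤ (log X) ^ a` without a prime
factor of the first kind and with `k + 1` prime factors of the second kind has a cofactor `≤ (log X) ^ w`, all of whose prime
factors are `≡ 1 (mod q)`: it lies in the class `b_0 ^ (k + 1) = b_0`. So in the inclusion and exclusion over the primes of the
second kind, with the fundamental lemma for the first kind, the last term is there for the class `b_0` only, and it is much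
larger than the errors when `w` is small.
-/

set_option autoImplicit false

open Filter

namespace Pool.Agent.Results.MP_b09185_nt.PrimeRaces

/-- `R_a(x; q, b) = φ(q) (log x / h) #{p ∈ (x, x + h] : p prime, p ≡ b (mod q)}` for `h = (log x) ^ a` and a reduced residue
class `b` modulo `q` -/
noncomputable def R (q : ℕ) (a : ℝ) (b : (ZMod q)ˣ) (x : ℝ) : ℝ :=
  (Nat.totient q : ℝ) * (Real.log x / Real.log x ^ a) *
    (Set.ncard {p : ℕ | p.Prime ∧ (p : ZMod q) = b ∧ x < p ∧ (p : ℝ) ≤ x + Real.log x ^ a} : ℝ)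

theorem R_eq (q : ℕ) [NeZero q] (a : ℝ) (b : (ZMod q)ˣ) (x : ℝ) (hx : 1 < x) :
    R q a b x = Pool.Agent.W5h25.PR.RR q (Pool.Agent.W5h25.PR.cl q b) a x := by
  have hL : 0 < Real.log x := Real.log_pos hx
  have hh : 0 < Real.log x ^ a := Real.rpow_pos_of_pos hL a
  unfold R Pool.Agent.W5h25.PR.RR
  congr 1
  unfold Pool.Agent.W5h25.PR.piAP
  have hcl : ∀ p : ℕ, p ≡ Pool.Agent.W5h25.PR.cl q b [MOD q] ↔ (p : ZMod q) = b := by
    intro p
    rw [← ZMod.natCast_eq_natCast_iff]
    unfold Pool.Agent.W5h25.PR.cl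
    rw [ZMod.natCast_zmod_val]
  have hsub : (Finset.Icc 1 ⌊x⌋₊).filter (fun p => p.Prime ∧ p ≡ Pool.Agent.W5h25.PR.cl q b [MOD q]) ⊆
      (Finset.Icc 1 ⌊x + Real.log x ^ a⌋₊).filter (fun p => p.Prime ∧ p ≡ Pool.Agent.W5h25.PR.cl q b [MOD q]) := by
    apply Finset.filter_subset_filter
    apply Finset.Icc_subset_Icc_right
    exact Nat.floor_le_floor (by linarith)
  rw [← Nat.cast_sub (Finset.card_le_card hsub), ← Finset.card_sdiff_of_subset hsub, ← Set.ncard_coe_finset]
  congr 2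
  ext p
  simp only [Set.mem_ofPred_eq, Finset.coe_sdiff, Finset.coe_filter, Finset.mem_Icc, Set.mem_sdiff, hcl]
  constructor
  · rintro ⟨h1, h2, h3, h4⟩
    refine ⟨⟨⟨h1.one_lt.le, Nat.le_floor h4⟩, h1, h2⟩, ?_⟩
    rintro ⟨⟨_, h5⟩, _⟩
    have := (Nat.le_floor_iff (by linarith)).1 h5
    linarith
  · rintro ⟨⟨⟨h1, h2⟩, h3, h4⟩, h5⟩
    refine ⟨h3, h4, ?_, (Nat.le_floor_iff (by linarith)).1 h2⟩
    by_contra h6
    push Not at h6
    exact h5 ⟨⟨h1, Nat.le_floor h6⟩, h3, h4⟩

theorem result (q : ℕ) [NeZero q] (a : ℝ) (ha : 1 < a) :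
    (∀ c : (ZMod q)ˣ → ℝ, c ≠ 0 → ∀ ε : ℝ, 0 < ε → ∃ δ : ℝ, 0 < δ ∧
      ∀ᶠ X : ℝ in atTop, X * Real.exp (-Real.log X ^ ε) ≤
        (Set.ncard {x : ℕ | X < x ∧ (x : ℝ) < 3 * X ∧ ∑ b, c b + δ ≤ ∑ b, c b * R q a b x} : ℝ)) ∧
    (∃ ρ : ℝ, 0 < ρ ∧ ∀ᶠ X : ℝ in atTop, ∀ w : (ZMod q)ˣ → ℝ, (∀ b, |w b - 1| ≤ ρ) →
      w ∈ convexHull ℝ {r : (ZMod q)ˣ → ℝ | ∃ x : ℕ, X < x ∧ (x : ℝ) < 3 * X ∧ r = fun b => R q a b x}) := by
  constructor
  · intro c hc ε hε
    have hc' : ∃ u, c u ≠ 0 := by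
      by_contra hcon
      push Not at hcon
      exact hc (funext hcon)
    obtain ⟨δ, hδ, h⟩ := Pool.Agent.W5h25.PR.lin_main q a ha c hc' ε hε
    refine ⟨δ, hδ, ?_⟩
    filter_upwards [h, eventually_gt_atTop (1 : ℝ)] with X hX hX0
    refine hX.trans (le_of_eq ?_)
    rw [← Set.ncard_coe_finset]
    congr 2
    ext x
    unfold Pool.Agent.W5h22.JM.big
    rw [Finset.mem_coe, Finset.mem_filter, Finset.mem_Icc]
    constructor
    · rintro ⟨_, h1, h2, h3⟩
      refine ⟨h1, h2, h3.trans (le_of_eq ?_)⟩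
      exact Finset.sum_congr rfl fun b _ => by rw [R_eq q a b x (by linarith)]
    · rintro ⟨h1, h2, h3⟩
      refine ⟨⟨?_, Nat.le_floor h2.le⟩, h1, h2, h3.trans (le_of_eq ?_)⟩
      · have : (0 : ℝ) < x := by linarith
        exact_mod_cast this
      · exact Finset.sum_congr rfl fun b _ => by rw [R_eq q a b x (by linarith)]
  · obtain ⟨ρ, hρ, h⟩ := Pool.Agent.W5h25.PR.hull_main q a ha
    refine ⟨ρ, hρ, ?_⟩
    filter_upwards [h, eventually_gt_atTop (1 : ℝ)] with X hX hX0 w hw
    have h1 : {r : (ZMod q)ˣ → ℝ | ∃ x : ℕ, X < x ∧ (x : ℝ) < 3 * X ∧ r = fun b => R q a b x} =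
        {r : (ZMod q)ˣ → ℝ | ∃ n : ℕ, X < n ∧ (n : ℝ) < 3 * X ∧
          r = fun u => Pool.Agent.W5h25.PR.RR q (Pool.Agent.W5h25.PR.cl q u) a n} := by
      ext r
      constructor
      · rintro ⟨x, h1, h2, rfl⟩
        exact ⟨x, h1, h2, funext fun b => R_eq q a b x (by linarith)⟩
      · rintro ⟨x, h1, h2, rfl⟩
        exact ⟨x, h1, h2, funext fun b => (R_eq q a b x (by linarith)).symm⟩
    rw [h1]
    exact hX w hw

end Pool.Agent.Results.MP_b09185_nt.PrimeRaces
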