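import Pool.Agent.W5h31.UM.UM9

/-!
# Primes in short intervals: all lengths, and all functions `h`, at the same time

`R h x = (log x / h(x)) (π(x + h(x)) - π(x))`, `U(h)` and `L(h)` are its upper and lower limit, and
`U_a`, `L_a` those for `h = (log x) ^ a`. The functions `h` are arbitrary, bounded from below by a positive
constant.

(1) Comparison. If `h = o(H)`, uniformly on the intervals `[x - 1, x + H(x) + 2]`, then `U(H) ≤ U(h)`, and
`L(h) ≤ L(H)` if `H(x) ≤ x`.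

(2) `lim U_a` and `lim L_a` exist; they are the infimum of `U(h)` and the supremum of `L(h)` over all functions
`h` with `h(x) ≤ (log x) ^ A` for large `x`, for some `A`.

(3) So each of the following is equivalent to the question `lim L_a = 1 = lim U_a`:
* its form with `ε` (the frozen statement);
* the infimum and the supremum in (2) are both `1`;
* for every `ε > 0` there is an `A` such that there are only finitely many integers `q` which are rich (every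
  interval `[q, q + t)`, `0 < t ≤ (log q) ^ A`, contains at least `(1 + ε) t / log q` primes) or poor (every
  interval `(q, q + t]`, `0 < t ≤ (log q) ^ A`, contains at most `(1 - ε) t / log q` primes);
* for every `ε > 0` there is an `A` such that for all large `n` neither `(1 + ε) (p_(n+k) - p_n) ≤ k log p_n`
  for all `1 ≤ k ≤ (log p_n) ^ A` nor `k log p_n ≤ (1 - ε) (p_(n+k) - p_n)` for all these `k`.

(4) Unconditionally for all `A, ε > 0` there is a `δ > 0` with `U(h) ≥ 1 + δ` and `L(h) ≤ 1 - δ` for ALL functions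
`h` with `h(x) ≤ (log x) ^ A`; at least `X exp (-(log X) ^ ε)` integers `q` in `(X, 4 X)`, `X` large, are rich
(with `1 + δ` and `A`), and as many are poor (with `1 - δ`); and in terms of consecutive primes.

Proof: the rising sun lemma, applied inside one interval of exceptional density. The exceptional densities are
from `Pool.Agent.W5h22.JM` (Maier's method with multiples of the product of the primes of
`((log X) ^ u, (log X) ^ v]`).
-/

set_option autoImplicit false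

open Filter Topology

namespace Pool.Agent.Results.MP_b09185_nt.UniformOscillation

/-- `R_h(x) = (log x / h(x)) (π(x + h(x)) - π(x))` -/
noncomputable def R (h : ℝ → ℝ) (x : ℝ) : ℝ :=
  Real.log x / h x * ((Nat.primeCounting ⌊x + h x⌋₊ : ℝ) - Nat.primeCounting ⌊x⌋₊)

/-- `U(h) = limsup R_h(x)` -/
noncomputable def U (h : ℝ → ℝ) : EReal := limsup (fun x : ℝ => ((R h x : ℝ) : EReal)) atTop

/-- `L(h) = liminf R_h(x)` -/
noncomputable def L (h : ℝ → ℝ) : EReal := liminf (fun x : ℝ => ((R h x : ℝ) : EReal)) atTop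

/-- the function `(log x) ^ a` -/
noncomputable def logPow (a : ℝ) : ℝ → ℝ := fun x => Real.log x ^ a

/-- `h(x) ≥ c` for all large `x`, for some `c > 0` -/
def BoundedBelow (h : ℝ → ℝ) : Prop := ∃ c : ℝ, 0 < c ∧ ∀ᶠ x : ℝ in atTop, c ≤ h x

/-- `h = o(H)`, uniformly on the intervals `[x - 1, x + H(x) + 2]` -/
def LittleO (h H : ℝ → ℝ) : Prop :=
  ∀ ε : ℝ, 0 < ε → ∀ᶠ x : ℝ in atTop, 0 ≤ H x ∧
    ∀ y : ℝ, x - 1 ≤ y → y ≤ x + H x + 2 → h y ≤ ε * H x

/-- `h` is bounded from below by a positive constant and `h(x) ≤ (log x) ^ A` for large `x`, for some `A` -/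
def Polylog (h : ℝ → ℝ) : Prop :=
  BoundedBelow h ∧ ∃ A : ℝ, ∀ᶠ x : ℝ in atTop, h x ≤ Real.log x ^ A

/-- Every interval `[q, q + t)`, `0 < t ≤ (log q) ^ A`, contains at least `V t / log q` primes. -/
def Rich (V A : ℝ) (q : ℕ) : Prop :=
  ∀ t : ℝ, 0 < t → t ≤ Real.log q ^ A →
    V * t ≤ Real.log q * (Set.ncard {r : ℕ | r.Prime ∧ (r : ℝ) ∈ Set.Ico (q : ℝ) (q + t)} : ℝ)

/-- Every interval `(q, q + t]`, `0 < t ≤ (log q) ^ A`, contains at most `V t / log q` primes. -/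
def Poor (V A : ℝ) (q : ℕ) : Prop :=
  ∀ t : ℝ, 0 < t → t ≤ Real.log q ^ A →
    Real.log q * (Set.ncard {r : ℕ | r.Prime ∧ (r : ℝ) ∈ Set.Ioc (q : ℝ) (q + t)} : ℝ) ≤ V * t

/-- the primes in increasing order, `p 0 = 2` -/
noncomputable def p (n : ℕ) : ℕ := Nat.nth Nat.Prime n

/-- `V (p (n + k) - p n) ≤ k log (p n)` for all `1 ≤ k ≤ (log (p n)) ^ A` -/
def GapRich (V A : ℝ) (n : ℕ) : Prop :=
  ∀ k : ℕ, 1 ≤ k → (k : ℝ) ≤ Real.log (p n) ^ A →
    V * ((p (n + k) : ℝ) - p n) ≤ k * Real.log (p n)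

/-- `k log (p n) ≤ V (p (n + k) - p n)` for all `1 ≤ k ≤ (log (p n)) ^ A` -/
def GapPoor (V A : ℝ) (n : ℕ) : Prop :=
  ∀ k : ℕ, 1 ≤ k → (k : ℝ) ≤ Real.log (p n) ^ A →
    k * Real.log (p n) ≤ V * ((p (n + k) : ℝ) - p n)

/-- the question: `lim L_a = 1 = lim U_a` -/
def Question : Prop :=
  Tendsto (fun a : ℝ => L (logPow a)) atTop (𝓝 1) ∧
    Tendsto (fun a : ℝ => U (logPow a)) atTop (𝓝 1)

theorem result :
    (∀ h H : ℝ → ℝ, BoundedBelow h → LittleO h H →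
      U H ≤ U h ∧ ((∀ᶠ x : ℝ in atTop, H x ≤ x) → L h ≤ L H)) ∧
    (Tendsto (fun a : ℝ => U (logPow a)) atTop (𝓝 (⨅ (h : ℝ → ℝ) (_ : Polylog h), U h)) ∧
      Tendsto (fun a : ℝ => L (logPow a)) atTop (𝓝 (⨆ (h : ℝ → ℝ) (_ : Polylog h), L h))) ∧
    [Question,
      ∀ ε : ℝ, 0 < ε → ∃ a₀ : ℝ, ∀ a : ℝ, a₀ ≤ a → ∀ᶠ x : ℝ in atTop, |R (logPow a) x - 1| ≤ ε,
      (⨅ (h : ℝ → ℝ) (_ : Polylog h), U h) = 1 ∧ (⨆ (h : ℝ → ℝ) (_ : Polylog h), L h) = 1,
      ∀ ε : ℝ, 0 < ε → ∃ A : ℝ, ∀ᶠ q : ℕ in atTop, ¬ Rich (1 + ε) A q ∧ ¬ Poor (1 - ε) A q,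
      ∀ ε : ℝ, 0 < ε → ∃ A : ℝ, ∀ᶠ n : ℕ in atTop,
        ¬ GapRich (1 + ε) A n ∧ ¬ GapPoor (1 - ε) A n].TFAE ∧
    ∀ A ε : ℝ, 0 < A → 0 < ε → ∃ δ : ℝ, 0 < δ ∧
      (∀ h : ℝ → ℝ, BoundedBelow h → (∀ᶠ x : ℝ in atTop, h x ≤ Real.log x ^ A) →
        ((1 + δ : ℝ) : EReal) ≤ U h ∧ L h ≤ ((1 - δ : ℝ) : EReal)) ∧
      (∀ᶠ X : ℝ in atTop,
        X * Real.exp (-(Real.log X) ^ ε) ≤
          ({q : ℕ | X < q ∧ (q : ℝ) < 4 * X ∧ Rich (1 + δ) A q}.ncard : ℝ) ∧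
        X * Real.exp (-(Real.log X) ^ ε) ≤
          ({q : ℕ | X < q ∧ (q : ℝ) < 4 * X ∧ Poor (1 - δ) A q}.ncard : ℝ) ∧
        X * Real.exp (-(Real.log X) ^ ε) ≤
          ({n : ℕ | X < p n ∧ (p n : ℝ) < 4 * X ∧ GapRich (1 + δ) A n}.ncard : ℝ)) ∧
      ∃ᶠ n : ℕ in atTop, GapPoor (1 - δ) A n :=
  ⟨fun h H hh hH => ⟨Pool.Agent.W5h31.UM.U_le h H hh hH, Pool.Agent.W5h31.UM.L_le h H hh hH⟩,
    ⟨Pool.Agent.W5h31.UM.lim_U, Pool.Agent.W5h31.UM.lim_L⟩, Pool.Agent.W5h31.UM.tfae,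
    fun A ε hA hε => Pool.Agent.W5h31.UM.osc A ε hA hε⟩

end Pool.Agent.Results.MP_b09185_nt.UniformOscillation
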